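import Mathlib
import Pool.Agent.W811.Stu.Stmts3
import Pool.Agent.W308.Stu.Bdd

/-!
Bounds for finite orbits (`TBddL`), adapted from `Pool.Agent.W308.Stu.Bdd`.
-/

set_option autoImplicit false

namespace Pool.Agent.W816.Stu

open Pool.Agent.W811.Stu Pool.Agent.W308.Stu

theorem bddL : TBddL := by
  intro δ _
  set S := Real.sqrt (1 + δ ^ 2) with hS
  have hS0 : 0 ≤ S := Real.sqrt_nonneg _
  refine ⟨1 + 2 * S, by linarith, ?_⟩
  intro d hd p hp hpz M hM
  set o := orb d p with ho
  have hos : ∀ m, o (m + 1) = stepT (d m) (o m) := fun m => rfl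
  have hzs : ∀ m, (o (m + 1)).z = (o m).y := by
    intro m; rw [hos, stepT_eq]
  have hys : ∀ m, (o (m + 1)).y = tq (o m) (d m) := by
    intro m; rw [hos, stepT_eq]
  have hon : ∀ m, OnS δ (o m) := fun m => hp.orb d m
  have hE' : ∀ m < M, |(o m).y| ≤ 1 ∨ |(o (m + 1)).y| ≤ 1 := by
    intro i hi
    by_contra hcon
    push Not at hcon
    have hex : ∃ m, 1 < |(o m).y| ∧ 1 < |(o (m + 1)).y| := ⟨i, hcon⟩
    classical
    obtain ⟨h1, h2⟩ := Nat.find_spec hex
    have hmi : Nat.find hex ≤ i := Nat.find_min' hex hcon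
    set m := Nat.find hex with hm
    have hz : |(o m).z| ≤ 1 := by
      rcases Nat.eq_zero_or_pos m with h0 | h0
      · rw [h0]
        exact hpz
      · have h3 := Nat.find_min hex (m := m - 1) (by omega)
        have e : m - 1 + 1 = m := by omega
        rw [e] at h3
        have h4 := hzs (m - 1)
        rw [e] at h4
        rw [h4]
        by_contra hcon
        push Not at hcon
        exact h3 ⟨hcon, h1⟩
    have hB : Bad (o (m + 1)) := by
      rw [hos]
      apply enter hz h1 _ (hd m)
      rw [← hys]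
      exact h2
    have hBall : ∀ e, Bad (o (m + 1 + e)) := by
      intro e
      induction e with
      | zero => exact hB
      | succ e ih =>
        rw [← add_assoc, hos]
        exact (ih.step _ (hd _)).1
    have hBM := hBall (M - (m + 1))
    have e : m + 1 + (M - (m + 1)) = M := by omega
    rw [e] at hBM
    exact absurd hBM.2.1 (not_lt.2 hM)
  have hbig : ∀ m < M, 1 < |(o m).y| → |(o m).z| ≤ 1 ∧ |(o m).x| ≤ 1 := by
    intro m hmM hm
    have hz : |(o m).z| ≤ 1 := by
      cases m with
      | zero => exact hpz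
      | succ m =>
        rw [hzs]
        rcases hE' m (by omega) with h | h
        · exact h
        · linarith
    refine ⟨hz, ?_⟩
    by_contra hcon
    push Not at hcon
    have h1 : |(o (m + 1)).y| ≤ 1 := by
      rcases hE' m hmM with h | h
      · linarith
      · exact h
    rw [hys] at h1
    have h0 : |tq (o m) 0| ≤ |tq (o m) (0 + 1)| := by
      rw [tq_zero, zero_add, tq_one]; linarith
    have h2 := (grow' (o m) hm.le 0 h0 (d m) (by have := hd m; omega)).1
    rw [zero_add, tq_one] at h2
    linarith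
  have hy : ∀ m < M, |(o m).y| ≤ 1 + S := by
    intro m hmM
    rcases le_or_gt |(o m).y| 1 with h | h
    · linarith
    · obtain ⟨hz, hx⟩ := hbig m hmM h
      have hz2 := sq_le_one_iff_abs_le_one (o m).z |>.2 hz
      have hx2 := sq_le_one_iff_abs_le_one (o m).x |>.2 hx
      have h1 := hon m
      unfold OnS at h1
      have h2 : ((o m).y - (o m).x * (o m).z) ^ 2 ≤ 1 + δ ^ 2 := by
        nlinarith [mul_nonneg (sq_nonneg (o m).x) (sub_nonneg.2 hz2), sq_nonneg (o m).z]
      apply sq_bd h2
      rw [abs_mul]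
      exact mul_le_one₀ hx (abs_nonneg _) hz
  have hz : ∀ m < M, |(o m).z| ≤ 1 + S := by
    intro m hmM
    cases m with
    | zero => have : |(o 0).z| ≤ 1 := hpz; linarith
    | succ m => rw [hzs]; exact hy m (by omega)
  have hx : ∀ m < M, |(o m).x| ≤ 1 + 2 * S := by
    intro m hmM
    rcases le_or_gt |(o m).y| 1 with h | h
    · have hy2 := sq_le_one_iff_abs_le_one (o m).y |>.2 h
      have h1 := hon m
      unfold OnS at h1
      have h2 : ((o m).x - (o m).y * (o m).z) ^ 2 ≤ 1 + δ ^ 2 := by
        nlinarith [mul_nonneg (sq_nonneg (o m).z) (sub_nonneg.2 hy2), sq_nonneg (o m).y]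
      have h3 := sq_bd h2 (1 + S) (by
        rw [abs_mul]
        calc |(o m).y| * |(o m).z| ≤ 1 * (1 + S) :=
              mul_le_mul h (hz m hmM) (abs_nonneg _) zero_le_one
          _ = 1 + S := one_mul _)
      linarith
    · have := (hbig m hmM h).2
      linarith
  intro j hj
  exact ⟨hE' j hj, by have := hz j hj; linarith, by have := hy j hj; linarith, hx j hj⟩

end Pool.Agent.W816.Stu
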