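import Mathlib
import Pool.Agent.W811.Stu.Stmts4

/-!
Association (`THA`) and the lower bound of the distance when a level function is large (`THB`).
-/

set_option autoImplicit false

open Set

namespace Pool.Agent.W816.Stu

open Pool.Agent.W811.Stu

lemma kap_lt {lam : ℝ} (hlam : 0 < lam) {i j : ℝ} (h : i < j) : kap lam i < kap lam j := by
  have h1 : 1 < cc (lam / 2) := one_lt_cc (by positivity)
  unfold kap
  have : (j - i) * (cc (lam / 2) - 1) > 0 := mul_pos (by linarith) (by linarith)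
  linarith

lemma kap_four (lam : ℝ) : kap lam 4 = cc (lam / 2) := by unfold kap; ring

lemma kap_zero (lam : ℝ) : kap lam 0 = 1 := by unfold kap; ring

lemma one_lt_kap {lam : ℝ} (hlam : 0 < lam) {i : ℝ} (h : 0 < i) : 1 < kap lam i := by
  have := kap_lt hlam h
  rwa [kap_zero] at this

/-- the conclusion of `TLeafC` for fixed constants -/
def LC (δ κ κ' : ℝ) (j0 : ℕ) : Prop :=
  ∀ d : ℕ → ℕ, (∀ k, 1 ≤ d k) → ∀ (M : ℕ) (g : ℝ → P3) (s t : ℝ), IsLeaf δ d M g s t →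
    |(orb d (g s) M).y| ≤ 1 → ∀ j, j0 ≤ j → j + 3 ≤ M → |(orb d (g s) j).y| ≤ κ →
    ∀ τ ∈ uIcc s t, |(orb d (g τ) j).y| ≤ κ'

/-- the conclusion of `TLeafT` for fixed constants -/
def LT (δ κ1 κ3 : ℝ) (K0 j0 : ℕ) : Prop :=
  ∀ d : ℕ → ℕ, (∀ k, 1 ≤ d k) → ∀ (M : ℕ) (g : ℝ → P3) (s t : ℝ), IsLeaf δ d M g s t →
    |(orb d (g s) M).y| ≤ 1 → ∀ j, j0 ≤ j → j + 4 ≤ M → 1 < |(orb d (g s) j).y| → K0 ≤ d j →
    ∀ τ ∈ uIcc s t, κ3 ≤ |(orb d (g τ) j).y| ∧ ∀ k ≤ d j, |tf d j k (g τ)| ≤ κ1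

lemma ctlY {lam κ1 : ℝ} {jC : ℕ} (H : LC (lam / 2) 1 κ1 jC) {β : ℕ → ℕ} (hβ : ∀ k, 1 ≤ β k)
    {j : ℕ} (hj : jC ≤ j) {E0 : ℝ} (hy : |(orb β (lin lam E0) j).y| ≤ 1) :
    Ctl lam β E0 β j κ1 := by
  refine ⟨j + 3, fun M hM hyM g s t hg hgs τ hτ => ?_⟩
  exact H β hβ M g s t hg (by rwa [hgs]) j hj hM (by rwa [hgs]) τ hτ

lemma ctlT {lam κ1 κ3 : ℝ} {K0 jT : ℕ} (H : LT (lam / 2) κ1 κ3 K0 jT) {β : ℕ → ℕ}
    (hβ : ∀ k, 1 ≤ β k) {j k : ℕ} (hj : jT ≤ j) {E0 : ℝ} (hy : 1 < |(orb β (lin lam E0) j).y|)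
    (hK : K0 ≤ β j) (hk : k ≤ β j) :
    Ctl lam β E0 (Function.update β j k) (j + 1) κ1 := by
  refine ⟨j + 4, fun M hM hyM g s t hg hgs τ hτ => ?_⟩
  rw [tf_eq_orb]
  exact (H β hβ M g s t hg (by rwa [hgs]) j hj hM (by rwa [hgs]) hK τ hτ).2 k hk

lemma cont_orb_Ga' (lam : ℝ) (d : ℕ → ℕ) (n : ℕ) (b : ℕ → ℕ) (m : ℕ) :
    Continuous fun E => (orb b (Ga lam d n E) m).y :=
  cont_toL_y (f := fun E => orb b (Ga lam d n E) m)
    ((cont_orb b m).comp ((cont_orb d (n + 1)).comp (cont_lin lam)))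

lemma lowT {lam κ1 κ3 : ℝ} {K0 jT : ℕ} (H : LT (lam / 2) κ1 κ3 K0 jT) {d : ℕ → ℕ} {n : ℕ}
    (hd : ∀ k, 1 ≤ d k) {j : ℕ} (hj : jT ≤ j) {e0 e1 E0 E1 : ℝ} (hH : Hol lam d n e0 e1 E0 E1)
    (hy : 1 < |(orb (sh d n) (lin lam E0) j).y|) (hK : K0 ≤ sh d n j) :
    κ3 ≤ |(orb (sh d n) (Ga lam d n E1) j).y| := by
  have hcl : IsClosed {e | κ3 ≤ |(orb (sh d n) (Ga lam d n e) j).y|} :=
    isClosed_le continuous_const (cont_orb_Ga' lam d n (sh d n) j).abs
  have : E1 ∈ closure {e | κ3 ≤ |(orb (sh d n) (Ga lam d n e) j).y|} := by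
    rw [Metric.mem_closure_iff]
    intro ε hε
    obtain ⟨M, hM, E, hE, hEE, hyM, g, s, t, hg, hgs, hgt⟩ := hH ε hε (j + 4)
    refine ⟨E, ?_, by rw [dist_comm, Real.dist_eq]; exact hEE⟩
    have := (H (sh d n) (fun k => hd _) M g s t hg (by rwa [hgs]) j hj hM (by rwa [hgs]) hK t
      right_mem_uIcc).1
    rw [hgt] at this
    exact this
  rwa [hcl.closure_eq] at this

lemma Reg_mono {δ κ κ' : ℝ} (h : κ ≤ κ') (b : ℕ → ℕ) (m : ℕ) : Reg δ κ b m ⊆ Reg δ κ' b m :=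
  fun _ hv => ⟨hv.1, hv.2.1, hv.2.2.trans h⟩

lemma finalA (h1 : TExit) (h2 : TDist) {lam : ℝ} (hlam : 0 < lam) {κ3 : ℝ} (hκ : 0 < κ3)
    (hκc : κ3 < cc (lam / 2)) {b : ℕ → ℕ} (hb : ∀ k, 1 ≤ b k) {m : ℕ} (hm : 2 ≤ m)
    {E0 E0' : ℝ}
    (hJ : JoinedIn (Reg (lam / 2) κ3 b m) (toL (lin lam E0)) (toL (lin lam E0'))) :
    |E0 - E0'| * |Vy b m (lin lam E0)| ≤ 2 * κ3 * lam * Real.exp (2 * κ3 / (cc (lam / 2) - κ3)) := by
  obtain ⟨E, -, hle, hu⟩ := h1 lam hlam.ne' b hb m hm κ3 hκc E0 (lin lam E0') hJ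
  rw [hu E0' rfl] at hle
  have := (((h2 lam hlam.ne' b hb m).2 κ3 hκ hκc).1 E0 E0' hle).2
  rwa [abs_of_pos hlam] at this

/-- association -/
theorem hola (h1 : TExit) (h2 : TDist) (h3 : TJoin) (h4 : TJoin2) (h5 : TLeafC) (h6 : TLeafT)
    (h7 : THyp) : THA := by
  intro lam hlam
  have hδ : lam / 2 ≠ 0 := by positivity
  have hk01 : 1 < kap lam 1 := one_lt_kap hlam (by norm_num)
  have hk12 : kap lam 1 < kap lam 2 := kap_lt hlam (by norm_num)
  have hk23 : kap lam 2 < kap lam 3 := kap_lt hlam (by norm_num)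
  have hk34 : kap lam 3 < cc (lam / 2) := by rw [← kap_four]; exact kap_lt hlam (by norm_num)
  obtain ⟨jC, hjC, HC⟩ := h5 (lam / 2) 1 (kap lam 1) hδ zero_le_one hk01 (by linarith)
  obtain ⟨KT, jT, hKT, hjT, HT⟩ := h6 (lam / 2) (kap lam 1) (kap lam 3) hδ hk01 (by linarith) hk34
  obtain ⟨jJ, hjJ, HJ⟩ := h4 lam (kap lam 2) (kap lam 3) hlam.ne' (by linarith) hk23 hk34
  obtain ⟨KH, HH⟩ := h7 (lam / 2) (kap lam 2) (kap lam 3) hδ (by linarith) hk34
  change LC (lam / 2) 1 (kap lam 1) jC at HC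
  change LT (lam / 2) (kap lam 1) (kap lam 3) KT jT at HT
  refine ⟨max jC (max jT jJ), max KT KH,
    2 * kap lam 3 * lam * Real.exp (2 * kap lam 3 / (cc (lam / 2) - kap lam 3)),
    hjC.trans (le_max_left _ _), hKT.trans (le_max_left _ _), ?_, ?_⟩
  · have : 0 < kap lam 3 := by linarith
    positivity
  intro d n hd e0 e1 hW E0 hE0 E0' hE0' E1 E1' hH hH' s hv hok
  have hβ : ∀ k, 1 ≤ sh d n k := fun k => hd _
  obtain ⟨hm1, J1, J3⟩ := h3 lam hlam.ne' d n hd e0 e1 hW E0 E1 hH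
  obtain ⟨hm1', J1', -⟩ := h3 lam hlam.ne' d n hd e0 e1 hW E0' E1' hH'
  cases s with
  | Y j =>
    obtain ⟨hj, hy⟩ := hv
    have hjC' : jC ≤ j := (le_max_left _ _).trans hj
    have hjJ' : jJ ≤ j := ((le_max_right _ _).trans (le_max_right _ _)).trans hj
    have a1 := (J1 (sh d n) j (kap lam 1) (ctlY HC hβ hjC' hy)).2 (kap lam 3) (by linarith)
    have a2 := (J3 (sh d n) j (kap lam 2) E1 E1' hm1 hm1' hok).mono
      (Reg_mono hk23.le (sh d n) j)
    have a3 := HJ d n hd e0 e1 hW E0' E1' hH' j hjJ' (hok E1' right_mem_uIcc)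
    exact finalA (m := j) h1 h2 hlam (by linarith) hk34 hβ (by omega)
      ((a1.trans a2).trans a3.symm)
  | T j k =>
    obtain ⟨hj, hy, hK, hk⟩ := hv
    have hjC' : jC ≤ j := by have := le_max_left jC (max jT jJ); omega
    have hjT' : jT ≤ j := by
      have := le_max_right jC (max jT jJ)
      have := le_max_left jT jJ
      omega
    have hKT' : KT ≤ sh d n j := by have := le_max_left KT KH; omega
    have hKH' : KH ≤ k := (le_max_right _ _).trans hK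
    have hlow := lowT HT hd hjT' hH hy hKT'
    -- the function `y_j` stays large along the curve
    have hyp : ∀ e ∈ uIcc E1 E1', 1 < |(orb (sh d n) (Ga lam d n e) j).y| →
        kap lam 3 ≤ |(orb (sh d n) (Ga lam d n e) j).y| := by
      intro e he h
      obtain ⟨o1, o2⟩ := hok e he
      obtain ⟨i, hi⟩ : ∃ i, j = i + 1 := ⟨j - 1, by omega⟩
      refine (HH (orb (sh d n) (Ga lam d n e) j) k ?_ h ?_ ?_).2 hKH'
      · exact ((onS_lin lam e).orb d (n + 1)).orb (sh d n) j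
      · subst hi
        rw [orb_succ_z]
        exact o2
      · exact o1
    have hlow' : kap lam 3 ≤ |(orb (sh d n) (Ga lam d n E1') j).y| := by
      apply hyp E1' right_mem_uIcc
      by_contra hc
      push Not at hc
      have hiv := intermediate_value_uIcc (a := E1) (b := E1')
        (f := fun e => |(orb (sh d n) (Ga lam d n e) j).y|)
        (cont_orb_Ga' lam d n (sh d n) j).abs.continuousOn
      have hmid : (1 + kap lam 3) / 2 ∈ uIcc (|(orb (sh d n) (Ga lam d n E1) j).y|)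
          (|(orb (sh d n) (Ga lam d n E1') j).y|) := by
        rw [uIcc_of_ge (by linarith)]
        constructor <;> linarith
      obtain ⟨ρ, hρ, hρ2⟩ := hiv hmid
      simp only at hρ2
      have := hyp ρ hρ (by rw [hρ2]; linarith)
      rw [hρ2] at this
      linarith
    have hbad : 1 < |(orb (sh d n) (lin lam E0') j).y| := by
      by_contra hc
      push Not at hc
      have := (J1' (sh d n) j (kap lam 1) (ctlY HC hβ hjC' hc)).1
      linarith
    have hb : ∀ i, 1 ≤ Function.update (sh d n) j k i := by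
      intro i
      by_cases h : i = j
      · subst h
        rw [Function.update_self]
        have := le_max_left KT KH
        omega
      · rw [Function.update_of_ne h]; exact hβ i
    have a1 := (J1 (Function.update (sh d n) j k) (j + 1) (kap lam 1)
      (ctlT HT hβ hjT' hy hKT' hk.le)).2 (kap lam 3) (by linarith)
    have a3 := (J1' (Function.update (sh d n) j k) (j + 1) (kap lam 1)
      (ctlT HT hβ hjT' hbad hKT' hk.le)).2 (kap lam 3) (by linarith)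
    have a2 := (J3 (Function.update (sh d n) j k) (j + 1) (kap lam 2) E1 E1' hm1 hm1'
      (fun e he => by rw [tf_eq_orb]; exact (hok e he).1)).mono
      (Reg_mono hk23.le (Function.update (sh d n) j k) (j + 1))
    exact finalA (m := j + 1) h1 h2 hlam (by linarith) hk34 hb (by omega)
      ((a1.trans a2).trans a3.symm)

end Pool.Agent.W816.Stu
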