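import Mathlib
import Pool.Agent.W811.Stu.Stmts4
import Pool.Agent.W816.Stu.HolA

/-!
The lower bound of the distance when a level function is large (`THB`).
-/

set_option autoImplicit false

open Set

namespace Pool.Agent.W816.Stu

open Pool.Agent.W811.Stu

lemma first_cross {F : ℝ → ℝ} (hF : Continuous F) {κ a e : ℝ} (h0 : |F a| < κ) (h1 : κ < |F e|) :
    ∃ E ∈ uIcc a e, |F E| = κ ∧ ∀ x ∈ uIcc a E, |F x| ≤ κ := by
  have hA : Continuous fun θ : ℝ => a + θ * (e - a) := by fun_prop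
  have hG : Continuous fun θ : ℝ => |F (a + θ * (e - a))| := (hF.comp hA).abs
  have hcomp : IsCompact {θ ∈ Icc (0:ℝ) 1 | κ ≤ |F (a + θ * (e - a))|} := by
    have : {θ ∈ Icc (0:ℝ) 1 | κ ≤ |F (a + θ * (e - a))|} =
      Icc (0:ℝ) 1 ∩ {θ | κ ≤ |F (a + θ * (e - a))|} := rfl
    rw [this]
    exact isCompact_Icc.inter_right (isClosed_le continuous_const hG)
  obtain ⟨t, ht⟩ := hcomp.exists_isLeast ⟨1, ⟨by norm_num, le_rfl⟩, by
    have : a + 1 * (e - a) = e := by ring
    rw [this]; exact h1.le⟩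
  obtain ⟨⟨⟨ht0, ht1⟩, ht2⟩, hmin⟩ := ht
  have hlt : ∀ θ, 0 ≤ θ → θ < t → |F (a + θ * (e - a))| < κ := by
    intro θ h0 hθ
    by_contra hc
    push Not at hc
    have := hmin ⟨⟨h0, hθ.le.trans ht1⟩, hc⟩
    exact absurd hθ (not_lt.2 this)
  have htpos : 0 < t := by
    rcases ht0.eq_or_lt with h | h
    · rw [← h] at ht2
      simp only [zero_mul, add_zero] at ht2
      exact absurd h0 (not_lt.2 ht2)
    · exact h
  have htle : |F (a + t * (e - a))| ≤ κ := by
    have hcl : IsClosed {θ : ℝ | |F (a + θ * (e - a))| ≤ κ} := isClosed_le hG continuous_const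
    have : t ∈ closure (Ico 0 t) := by
      rw [closure_Ico htpos.ne]
      exact ⟨ht0, le_rfl⟩
    exact hcl.closure_subset_iff.2 (fun θ hθ => (hlt θ hθ.1 hθ.2).le) this
  refine ⟨a + t * (e - a), ?_, le_antisymm htle ht2, ?_⟩
  · rcases le_total a e with h2 | h2
    · rw [uIcc_of_le h2]; constructor <;> nlinarith
    · rw [uIcc_of_ge h2]; constructor <;> nlinarith
  · intro x hx
    have hea : e - a ≠ 0 := by
      intro h
      have : e = a := by linarith
      rw [this] at h1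
      linarith
    -- `x = a + θ (e - a)`
    obtain ⟨θ, hθ⟩ : ∃ θ, x = a + θ * (e - a) := ⟨(x - a) / (e - a), by field_simp; ring⟩
    have hθ2 : 0 ≤ θ ∧ θ ≤ t := by
      rcases lt_or_gt_of_ne hea with h2 | h2
      · rw [uIcc_of_ge (by nlinarith)] at hx
        rw [hθ] at hx
        constructor
        · by_contra hc; push Not at hc; nlinarith [hx.2]
        · by_contra hc; push Not at hc; nlinarith [hx.1]
      · rw [uIcc_of_le (by nlinarith)] at hx
        rw [hθ] at hx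
        constructor
        · by_contra hc; push Not at hc; nlinarith [hx.1]
        · by_contra hc; push Not at hc; nlinarith [hx.2]
    rw [hθ]
    rcases hθ2.2.eq_or_lt with h | h
    · rw [h]; exact htle
    · exact (hlt θ hθ2.1 h).le

lemma orb_cat (d : ℕ → ℕ) (n : ℕ) (b : ℕ → ℕ) (p : P3) (m : ℕ) :
    orb (cat d n b) p (n + 1 + m) = orb b (orb d p (n + 1)) m := by
  rw [orb_add]
  have e1 : orb (cat d n b) p (n + 1) = orb d p (n + 1) :=
    orb_congr p (fun k hk => by unfold cat; rw [if_pos (by omega)])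
  have e2 : (fun k => cat d n b (n + 1 + k)) = b := by
    funext k
    unfold cat
    rw [if_neg (by omega)]
    congr 1
    omega
  rw [e1, e2]

lemma cross_bound (h1 : TComp) {lam : ℝ} (hlam : 0 < lam) {κ1 κ : ℝ} (hκ1 : 1 < κ1)
    (hκ : κ1 < κ) (hκc : κ < cc (lam / 2)) {d : ℕ → ℕ} {n : ℕ} (hd : ∀ k, 1 ≤ d k)
    {e0 e1 : ℝ} (hW : Win lam d n e0 e1) : ∃ (m0 : ℕ) (C : ℝ), 2 ≤ m0 ∧ 0 < C ∧
    ∀ E0 E1, Hol lam d n e0 e1 E0 E1 →
    ∀ (b : ℕ → ℕ) (m : ℕ), (∀ k, 1 ≤ b k) → m0 ≤ m → Ctl lam (sh d n) E0 b m κ1 →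
    |(orb b (Ga lam d n E1) m).y| ≤ κ1 → ∀ e, κ < |(orb b (Ga lam d n e) m).y| →
      (κ - κ1) * lam / C ≤ |E1 - e| * |Vy b m (lin lam E0)| := by
  obtain ⟨m0, C, hm0, hC, H⟩ := h1 lam κ1 κ hlam hκ1 hκ hκc d n hd e0 e1 hW
  refine ⟨m0, C, hm0, hC, ?_⟩
  intro E0 E1 hH b m hb hm hctl hy1 e he
  have hcont := cont_orb_Ga' lam d n b m
  obtain ⟨Es, hEs, hEs1, hEs2⟩ := first_cross hcont (hy1.trans_lt hκ) he
  set D := |Vy b m (lin lam E0)| with hD
  have hder : ∀ x, HasDerivAt (fun e => (orb b (Ga lam d n e) m).y)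
      (-(Vy (cat d n b) (n + 1 + m) (lin lam x)) / lam) x := by
    intro x
    have := hasDeriv_level hlam.ne' (cat d n b) (n + 1 + m) x
    have e1 : (fun e => (orb (cat d n b) (lin lam e) (n + 1 + m)).y) =
        fun e => (orb b (Ga lam d n e) m).y := by
      funext e; rw [orb_cat]; rfl
    rwa [e1] at this
  have hbound : ∀ x ∈ uIcc E1 Es, ‖-(Vy (cat d n b) (n + 1 + m) (lin lam x)) / lam‖ ≤
      C * D / lam := by
    intro x hx
    rw [Real.norm_eq_abs, abs_div, abs_neg, abs_of_pos hlam]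
    apply div_le_div_of_nonneg_right _ hlam.le
    exact H E0 E1 hH b m hb hm hctl x (fun e he => hEs2 e (uIcc_subset_uIcc_left hx he))
  have mv := (convex_uIcc E1 Es).norm_image_sub_le_of_norm_hasDerivWithin_le
    (fun x _ => (hder x).hasDerivWithinAt) hbound left_mem_uIcc right_mem_uIcc
  rw [Real.norm_eq_abs, Real.norm_eq_abs] at mv
  have h2 := abs_sub_abs_le_abs_sub ((orb b (Ga lam d n Es) m).y) ((orb b (Ga lam d n E1) m).y)
  rw [hEs1] at h2
  have h3 : |Es - E1| ≤ |E1 - e| := by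
    rw [abs_sub_comm E1 e]
    exact abs_sub_left_of_mem_uIcc hEs
  have h4 : 0 ≤ C * D / lam := by positivity
  have h5 : κ - κ1 ≤ C * D / lam * |E1 - e| := by
    have := mul_le_mul_of_nonneg_left h3 h4
    linarith
  rw [div_le_iff₀ hC]
  have h6 : C * D / lam * |E1 - e| * lam = |E1 - e| * D * C := by field_simp
  nlinarith

/-- (B) -/
theorem holb (h1 : TComp) (h3 : TJoin) (h5 : TLeafC) (h6 : TLeafT) : THB := by
  intro lam hlam d n hd e0 e1 hW
  have hδ : lam / 2 ≠ 0 := by positivity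
  have hk01 : 1 < kap lam 1 := one_lt_kap hlam (by norm_num)
  have hk12 : kap lam 1 < kap lam 2 := kap_lt hlam (by norm_num)
  have hk23 : kap lam 2 < kap lam 3 := kap_lt hlam (by norm_num)
  have hk34 : kap lam 3 < cc (lam / 2) := by rw [← kap_four]; exact kap_lt hlam (by norm_num)
  obtain ⟨jC, hjC, HC⟩ := h5 (lam / 2) 1 (kap lam 1) hδ zero_le_one hk01 (by linarith)
  obtain ⟨KT, jT, hKT, hjT, HT⟩ := h6 (lam / 2) (kap lam 1) (kap lam 3) hδ hk01 (by linarith) hk34
  change LC (lam / 2) 1 (kap lam 1) jC at HC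
  change LT (lam / 2) (kap lam 1) (kap lam 3) KT jT at HT
  obtain ⟨m0, C, hm0, hC, H⟩ := cross_bound h1 hlam hk01 hk12 (hk23.trans hk34) hd hW
  refine ⟨max jC (max jT m0), max 1 KT, (kap lam 2 - kap lam 1) * lam / C,
    hjC.trans (le_max_left _ _), le_max_left _ _, ?_, ?_⟩
  · have : 0 < kap lam 2 - kap lam 1 := by linarith
    positivity
  intro E0 hE0 E1 hH s hv e he
  have hβ : ∀ k, 1 ≤ sh d n k := fun k => hd _
  obtain ⟨hm1, J1, -⟩ := h3 lam hlam.ne' d n hd e0 e1 hW E0 E1 hH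
  have x1 := le_max_left jC (max jT m0)
  have x2 := le_max_right jC (max jT m0)
  have x3 := le_max_left jT m0
  have x4 := le_max_right jT m0
  cases s with
  | Y j =>
    obtain ⟨hj, hy⟩ := hv
    have hc := ctlY HC hβ (x1.trans hj) hy
    exact H E0 E1 hH (sh d n) j hβ (by omega) hc (J1 _ _ _ hc).1 e he
  | T j k =>
    obtain ⟨hj, hy, hK, hk⟩ := hv
    have hKT' : KT ≤ sh d n j := by have := le_max_right 1 KT; omega
    have hb : ∀ i, 1 ≤ Function.update (sh d n) j k i := by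
      intro i
      by_cases h : i = j
      · subst h
        rw [Function.update_self]
        have := le_max_left 1 KT
        omega
      · rw [Function.update_of_ne h]; exact hβ i
    have hc := ctlT HT hβ (j := j) (k := k) (by omega) hy hKT' hk.le
    exact H E0 E1 hH (Function.update (sh d n) j k) (j + 1) hb (by omega) hc (J1 _ _ _ hc).1 e he

end Pool.Agent.W816.Stu
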