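import Mathlib
import Pool.Agent.W811.Stu.Stmts3

/-!
Joining the two ends of the holonomy (`TJoin`, `TJoin2`).
-/

set_option autoImplicit false

open Set

namespace Pool.Agent.W816.Stu

open Pool.Agent.W811.Stu

lemma aff_mem' {a b θ : ℝ} (hθ : θ ∈ Icc (0:ℝ) 1) : a + θ * (b - a) ∈ uIcc a b := by
  rcases le_total a b with h2 | h2
  · rw [uIcc_of_le h2]; constructor <;> nlinarith [hθ.1, hθ.2]
  · rw [uIcc_of_ge h2]; constructor <;> nlinarith [hθ.1, hθ.2]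

lemma joinedIn_of_path {X : Type*} [TopologicalSpace X] {F : Set X} {f : ℝ → X} {a b : ℝ}
    (hc : ContinuousOn f (uIcc a b)) (hF : ∀ τ ∈ uIcc a b, f τ ∈ F) : JoinedIn F (f a) (f b) := by
  have hA : Continuous fun θ : ℝ => a + θ * (b - a) := by fun_prop
  have hmaps : MapsTo (fun θ : ℝ => a + θ * (b - a)) (Icc 0 1) (uIcc a b) :=
    fun θ hθ => aff_mem' hθ
  refine JoinedIn.ofLine (f := fun θ => f (a + θ * (b - a))) ?_ ?_ ?_ ?_
  · exact hc.comp hA.continuousOn hmaps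
  · simp
  · simp
  · rintro _ ⟨θ, hθ, rfl⟩
    exact hF _ (hmaps hθ)

lemma cont_Ga (lam : ℝ) (d : ℕ → ℕ) (n : ℕ) : Continuous fun E => toL (Ga lam d n E) :=
  (cont_orb d (n + 1)).comp (cont_lin lam)

lemma cont_orb_Ga (lam : ℝ) (d : ℕ → ℕ) (n : ℕ) (b : ℕ → ℕ) (m : ℕ) :
    Continuous fun E => (orb b (Ga lam d n E) m).y :=
  cont_toL_y (f := fun E => orb b (Ga lam d n E) m) ((cont_orb b m).comp (cont_Ga lam d n))

lemma mem_Reg {δ κ : ℝ} {b : ℕ → ℕ} {m : ℕ} {p : P3} (h1 : OnS δ p) (h2 : |p.z| ≤ 1)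
    (h3 : |(orb b p m).y| ≤ κ) : toL p ∈ Reg δ κ b m := ⟨h1, h2, h3⟩

lemma onS_Ga (lam : ℝ) (d : ℕ → ℕ) (n : ℕ) (E : ℝ) : OnS (lam / 2) (Ga lam d n E) :=
  (onS_lin lam E).orb d (n + 1)

lemma Ga_z {lam : ℝ} {d : ℕ → ℕ} {n : ℕ} {e0 e1 : ℝ} (hW : Win lam d n e0 e1) {e : ℝ}
    (he : e ∈ Icc e0 e1) : |(Ga lam d n e).z| ≤ 1 := by
  have : (Ga lam d n e).z = (orb d (lin lam e) n).y := orb_succ_z _ _ _
  rw [this]
  exact (hW.2 e he).trans (by norm_num)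

/-- path along the curve -/
lemma join_Ga {lam : ℝ} {d : ℕ → ℕ} {n : ℕ} {e0 e1 : ℝ} (hW : Win lam d n e0 e1)
    {b : ℕ → ℕ} {m : ℕ} {κ E E' : ℝ} (hE : E ∈ Icc e0 e1) (hE' : E' ∈ Icc e0 e1)
    (h : ∀ e ∈ uIcc E E', |(orb b (Ga lam d n e) m).y| ≤ κ) :
    JoinedIn (Reg (lam / 2) κ b m) (toL (Ga lam d n E)) (toL (Ga lam d n E')) := by
  have hsub : uIcc E E' ⊆ Icc e0 e1 := uIcc_subset_Icc hE hE'
  exact joinedIn_of_path (f := fun e => toL (Ga lam d n e)) (cont_Ga lam d n).continuousOn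
    (fun τ hτ => mem_Reg (onS_Ga _ _ _ _) (Ga_z hW (hsub hτ)) (h τ hτ))

/-- path along a leaf -/
lemma join_leaf {δ : ℝ} {β : ℕ → ℕ} {M : ℕ} {g : ℝ → P3} {s t : ℝ} (hg : IsLeaf δ β M g s t)
    {b : ℕ → ℕ} {m : ℕ} {κ : ℝ} (h : ∀ τ ∈ uIcc s t, |(orb b (g τ) m).y| ≤ κ) :
    JoinedIn (Reg δ κ b m) (toL (g s)) (toL (g t)) :=
  joinedIn_of_path (f := fun τ => toL (g τ))
    (fun τ hτ => (hg.der τ hτ).cont.continuousWithinAt)
    (fun τ hτ => mem_Reg (hg.onS τ hτ) (hg.zz τ hτ) (h τ hτ))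

lemma IsLeaf.rev {δ : ℝ} {β : ℕ → ℕ} {M : ℕ} {g : ℝ → P3} {s t : ℝ} (hg : IsLeaf δ β M g s t) :
    IsLeaf δ β M g t s where
  der := fun τ hτ => hg.der τ (by rwa [uIcc_comm])
  onS := fun τ hτ => hg.onS τ (by rwa [uIcc_comm])
  zz := fun τ hτ => hg.zz τ (by rwa [uIcc_comm])
  lev := fun τ hτ => (hg.lev τ (by rwa [uIcc_comm])).trans (hg.lev t right_mem_uIcc).symm

lemma near {f : ℝ → ℝ} (hf : Continuous f) {κ' E1 : ℝ} (h : |f E1| < κ') :
    ∃ η > 0, ∀ e, |e - E1| < η → |f e| < κ' := by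
  have h1 : ∀ᶠ e in nhds E1, |f e| < κ' := hf.abs.continuousAt.eventually (gt_mem_nhds h)
  obtain ⟨η, hη, h2⟩ := Metric.eventually_nhds_iff.1 h1
  exact ⟨η, hη, fun e he => h2 (by rwa [Real.dist_eq])⟩

lemma seg_near {E E1 η e : ℝ} (h : |E - E1| < η) (he : e ∈ uIcc E E1) : |e - E1| < η := by
  have := abs_sub_right_of_mem_uIcc he
  rw [abs_sub_comm] at this
  refine lt_of_le_of_lt this ?_
  rwa [abs_sub_comm]

/-- joining the two ends of the holonomy -/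
theorem join : TJoin := by
  intro lam hlam d n hd e0 e1 hW E0 E1 hH
  have hmem : E1 ∈ Icc e0 e1 := by
    rw [← (isClosed_Icc (a := e0) (b := e1)).closure_eq, Metric.mem_closure_iff]
    intro ε hε
    obtain ⟨M, hM, E, hE, hEE, _⟩ := hH ε hε 0
    exact ⟨E, hE, by rw [dist_comm, Real.dist_eq]; exact hEE⟩
  refine ⟨hmem, ?_, ?_⟩
  · intro b m κ hC
    obtain ⟨N0, hN⟩ := hC
    have hle : |(orb b (Ga lam d n E1) m).y| ≤ κ := by
      have hcl : IsClosed {e | |(orb b (Ga lam d n e) m).y| ≤ κ} :=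
        isClosed_le (cont_orb_Ga lam d n b m).abs continuous_const
      have : E1 ∈ closure {e | |(orb b (Ga lam d n e) m).y| ≤ κ} := by
        rw [Metric.mem_closure_iff]
        intro ε hε
        obtain ⟨M, hM, E, hE, hEE, hy, g, s, t, hg, hgs, hgt⟩ := hH ε hε N0
        refine ⟨E, ?_, by rw [dist_comm, Real.dist_eq]; exact hEE⟩
        have := hN M hM hy g s t hg hgs t right_mem_uIcc
        rw [hgt] at this
        exact this
      rwa [hcl.closure_eq] at this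
    refine ⟨hle, ?_⟩
    intro κ' hκ'
    obtain ⟨η, hη, hnear⟩ := near (cont_orb_Ga lam d n b m) (hle.trans_lt hκ')
    obtain ⟨M, hM, E, hE, hEE, hy, g, s, t, hg, hgs, hgt⟩ := hH η hη N0
    have p1 : JoinedIn (Reg (lam / 2) κ' b m) (toL (g s)) (toL (g t)) :=
      join_leaf hg (fun τ hτ => (hN M hM hy g s t hg hgs τ hτ).trans hκ'.le)
    rw [hgs, hgt] at p1
    exact p1.trans (join_Ga hW hE hmem (fun e he => (hnear e (seg_near hEE he)).le))
  · intro b m κ E E' hE hE' h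
    exact join_Ga hW hE hE' h

/-- joining, when the level function is controlled at the second end -/
theorem join2 (h : TLeafC) : TJoin2 := by
  intro lam κ κ' hlam hκ0 hκκ hκc
  have hδ : lam / 2 ≠ 0 := div_ne_zero hlam (by norm_num)
  obtain ⟨j0, hj0, H⟩ := h (lam / 2) ((κ + κ') / 2) κ' hδ (by linarith) (by linarith) hκc
  refine ⟨j0, hj0, ?_⟩
  intro d n hd e0 e1 hW E0 E1 hH j hj hy1
  have hmem := (join lam hlam d n hd e0 e1 hW E0 E1 hH).1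
  obtain ⟨η, hη, hnear⟩ := near (cont_orb_Ga lam d n (sh d n) j)
    (hy1.trans_lt (show κ < (κ + κ') / 2 by linarith))
  obtain ⟨M, hM, E, hE, hEE, hy, g, s, t, hg, hgs, hgt⟩ := hH η hη (j + 3)
  have hlev : |(orb (sh d n) (g t) M).y| ≤ 1 := by
    rw [hg.lev t right_mem_uIcc, hgs]; exact hy
  have hE2 : |(orb (sh d n) (g t) j).y| ≤ (κ + κ') / 2 := by
    rw [hgt]; exact (hnear E hEE).le
  have hb : ∀ k, 1 ≤ sh d n k := fun k => hd _
  have c := H (sh d n) hb M g t s (IsLeaf.rev hg) hlev j hj hM hE2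
  have p1 : JoinedIn (Reg (lam / 2) κ' (sh d n) j) (toL (g s)) (toL (g t)) :=
    join_leaf hg (fun τ hτ => c τ (by rwa [uIcc_comm]))
  rw [hgs, hgt] at p1
  refine p1.trans (join_Ga hW hE hmem (fun e he => ?_))
  have := hnear e (seg_near hEE he)
  linarith

end Pool.Agent.W816.Stu
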