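import Mathlib
import Pool.Agent.W811.Stu.Stmts3

/-!
Level functions vary little along leaves of higher level (`TLeafC`), control of long hyperbolic
runs along leaves (`TLeafT`).
-/

set_option autoImplicit false

open Set

namespace Pool.Agent.W816.Stu

open Pool.Agent.W811.Stu

/-- small variation, positive direction -/
lemma drift_pos {φ ζ φ' ζ' : ℝ → ℝ} {ε κ κ' : ℝ}
    (hφ : ∀ θ ∈ Icc (0:ℝ) 1, HasDerivAt φ (φ' θ) θ)
    (hζ : ∀ θ ∈ Icc (0:ℝ) 1, HasDerivAt ζ (ζ' θ) θ)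
    (hpos : ∀ θ ∈ Icc (0:ℝ) 1, 0 < ζ' θ) (hz : ∀ θ ∈ Icc (0:ℝ) 1, |ζ θ| ≤ 1)
    (hdr : ∀ θ ∈ Icc (0:ℝ) 1, |φ θ| ≤ κ' → |φ' θ| ≤ ε * |ζ' θ|)
    (h0 : |φ 0| ≤ κ) (hε0 : 0 ≤ ε) (hε : 2 * ε < κ' - κ) : |φ 1| ≤ κ' := by
  by_contra hcon
  push Not at hcon
  have hcφ : ContinuousOn φ (Icc 0 1) := fun θ hθ => (hφ θ hθ).continuousAt.continuousWithinAt
  have hcζ : ContinuousOn ζ (Icc 0 1) := fun θ hθ => (hζ θ hθ).continuousAt.continuousWithinAt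
  have hcomp : IsCompact {θ ∈ Icc (0:ℝ) 1 | κ' ≤ |φ θ|} := by
    apply IsCompact.of_isClosed_subset isCompact_Icc _ (fun θ hθ => hθ.1)
    have := hcφ.abs.preimage_isClosed_of_isClosed isClosed_Icc (isClosed_Ici (a := κ'))
    exact this
  obtain ⟨a, ha⟩ := hcomp.exists_isLeast ⟨1, ⟨by norm_num, le_rfl⟩, hcon.le⟩
  obtain ⟨⟨⟨ha0, ha1⟩, ha2⟩, hmin⟩ := ha
  have hlt : ∀ θ ∈ Ioo 0 a, |φ θ| ≤ κ' := by
    intro θ hθ
    by_contra hc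
    push Not at hc
    have := hmin ⟨⟨hθ.1.le, hθ.2.le.trans ha1⟩, hc.le⟩
    exact absurd hθ.2 (not_lt.2 this)
  have hsub : Icc 0 a ⊆ Icc (0:ℝ) 1 := Icc_subset_Icc_right ha1
  have key : ∀ e : ℝ, |e| = 1 → MonotoneOn (fun θ => ε * ζ θ + e * φ θ) (Icc 0 a) := by
    intro e he
    apply monotoneOn_of_hasDerivWithinAt_nonneg (f' := fun θ => ε * ζ' θ + e * φ' θ)
      (convex_Icc 0 a)
    · exact ((hcζ.mono hsub).const_mul ε |>.add ((hcφ.mono hsub).const_mul e))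
    · intro θ hθ
      rw [interior_Icc] at hθ
      have hm : θ ∈ Icc (0:ℝ) 1 := hsub (Ioo_subset_Icc_self hθ)
      exact (((hζ θ hm).const_mul ε).add ((hφ θ hm).const_mul e)).hasDerivWithinAt
    · intro θ hθ
      rw [interior_Icc] at hθ
      have hm : θ ∈ Icc (0:ℝ) 1 := hsub (Ioo_subset_Icc_self hθ)
      have h1 := hdr θ hm (hlt θ hθ)
      have h2 : |e * φ' θ| ≤ ε * ζ' θ := by
        rw [abs_mul, he, one_mul]; rwa [abs_of_pos (hpos θ hm)] at h1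
      have := neg_abs_le (e * φ' θ)
      show 0 ≤ ε * ζ' θ + e * φ' θ
      linarith
  have m0 : (0:ℝ) ∈ Icc 0 a := ⟨le_rfl, ha0⟩
  have ma : a ∈ Icc 0 a := ⟨ha0, le_rfl⟩
  have k1 := key 1 (by simp) m0 ma ha0
  have k2 := key (-1) (by simp) m0 ma ha0
  simp only at k1 k2
  have z0 := abs_le.1 (hz 0 ⟨le_rfl, zero_le_one⟩)
  have za := abs_le.1 (hz a ⟨ha0, ha1⟩)
  have h0' := abs_le.1 h0
  have hd : ε * (ζ a - ζ 0) ≤ 2 * ε := by nlinarith [z0.1, za.2]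
  have : |φ a| < κ' := by rw [abs_lt]; constructor <;> nlinarith [h0'.1, h0'.2]
  exact absurd ha2 (not_le.2 this)

/-- small variation -/
lemma drift {φ ζ φ' ζ' : ℝ → ℝ} {ε κ κ' : ℝ}
    (hφ : ∀ θ ∈ Icc (0:ℝ) 1, HasDerivAt φ (φ' θ) θ)
    (hζ : ∀ θ ∈ Icc (0:ℝ) 1, HasDerivAt ζ (ζ' θ) θ)
    (hne : ∀ θ ∈ Icc (0:ℝ) 1, ζ' θ ≠ 0) (hz : ∀ θ ∈ Icc (0:ℝ) 1, |ζ θ| ≤ 1)
    (hdr : ∀ θ ∈ Icc (0:ℝ) 1, |φ θ| ≤ κ' → |φ' θ| ≤ ε * |ζ' θ|)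
    (h0 : |φ 0| ≤ κ) (hε0 : 0 ≤ ε) (hε : 2 * ε < κ' - κ) : |φ 1| ≤ κ' := by
  rcases hasDerivWithinAt_forall_lt_or_forall_gt_of_forall_ne (convex_Icc (0:ℝ) 1)
    (fun x hx => (hζ x hx).hasDerivWithinAt) hne with h | h
  · refine drift_pos (φ := φ) (ζ := fun θ => -ζ θ) (φ' := φ') (ζ' := fun θ => -ζ' θ) (ε := ε)
      (κ := κ) hφ (fun θ hθ => (hζ θ hθ).neg) (fun θ hθ => by have := h θ hθ; linarith)
      (fun θ hθ => by rw [abs_neg]; exact hz θ hθ)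
      (fun θ hθ hk => by rw [abs_neg]; exact hdr θ hθ hk) h0 hε0 hε
  · exact drift_pos hφ hζ h hz hdr h0 hε0 hε

lemma comp_aff {f : ℝ → ℝ} {f' s τ1 θ : ℝ} (hf : HasDerivAt f f' (s + θ * (τ1 - s))) :
    HasDerivAt (fun θ => f (s + θ * (τ1 - s))) (f' * (τ1 - s)) θ := by
  have h1 : HasDerivAt (fun θ : ℝ => s + θ * (τ1 - s)) (1 * (τ1 - s)) θ :=
    ((hasDerivAt_id θ).mul_const (τ1 - s)).const_add s
  have := hf.comp θ h1
  rw [one_mul] at this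
  exact this

lemma aff_mem {s t τ1 θ : ℝ} (h : τ1 ∈ uIcc s t) (hθ : θ ∈ Icc (0:ℝ) 1) :
    s + θ * (τ1 - s) ∈ uIcc s t := by
  have h1 : s + θ * (τ1 - s) ∈ uIcc s τ1 := by
    rcases le_total s τ1 with h2 | h2
    · rw [uIcc_of_le h2]; constructor <;> nlinarith [hθ.1, hθ.2]
    · rw [uIcc_of_ge h2]; constructor <;> nlinarith [hθ.1, hθ.2]
  exact (uIcc_subset_uIcc_left h) h1

/-- along a leaf the `z` coordinate has a nonvanishing derivative -/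
lemma leaf_ne {δ : ℝ} (hδ : δ ≠ 0) {d : ℕ → ℕ} (hd : ∀ k, 1 ≤ d k) {M : ℕ} (hM : 2 ≤ M)
    {p : P3} (hS : OnS δ p) (hz : |p.z| ≤ 1) (hy : |(orb d p M).y| ≤ 1) :
    (LF d M p).z ≠ 0 := by
  have hδ2 : 0 < δ ^ 2 := by positivity
  exact (cmpY hδ (κ := 1) zero_le_one (by linarith) hd hM hS (by rw [← sq_abs]; nlinarith [abs_nonneg p.z])
    (by rw [← sq_abs]; nlinarith [abs_nonneg (orb d p M).y])).2.2

/-- level functions stay bounded along leaves of higher level -/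
theorem leafC (h1 : TDrift) (h2 : TBddL) : TLeafC := by
  intro δ κ κ' hδ hκ0 hκκ hκc
  obtain ⟨C1, hC1, H1⟩ := h1 δ hδ
  obtain ⟨C2, hC2, H2⟩ := h2 δ hδ
  obtain ⟨j1, hj1⟩ : ∃ j1 : ℕ, 2 * (C1 * (1 + C2)) / (κ' - κ) < 2 ^ j1 :=
    pow_unbounded_of_one_lt _ (by norm_num)
  have hpos : 0 < κ' - κ := by linarith
  rw [div_lt_iff₀ hpos] at hj1
  refine ⟨2 * j1 + 2, by omega, ?_⟩
  intro d hd M g s t hg hM j hj hjM hjs τ1 hτ1
  have hcc := one_lt_cc hδ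
  have hlev : ∀ τ ∈ uIcc s t, |(orb d (g τ) M).y| ≤ 1 := fun τ hτ => by rw [hg.lev τ hτ]; exact hM
  set P : ℝ → ℝ := fun θ => s + θ * (τ1 - s) with hP
  have hmem : ∀ θ ∈ Icc (0:ℝ) 1, P θ ∈ uIcc s t := fun θ hθ => aff_mem hτ1 hθ
  have hpw : (0:ℝ) < 2 ^ (j / 2) := by positivity
  have hε0 : 0 ≤ C1 * (1 + C2) / 2 ^ (j / 2) := by positivity
  by_cases hs : τ1 = s
  · rw [hs]; linarith
  have hne : τ1 - s ≠ 0 := sub_ne_zero.2 hs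
  have main := drift (φ := fun θ => (orb d (g (P θ)) j).y) (ζ := fun θ => (g (P θ)).z)
    (φ' := fun θ => (dorb d (g (P θ)) (LF d M (g (P θ))) j).y * (τ1 - s))
    (ζ' := fun θ => (LF d M (g (P θ))).z * (τ1 - s)) (ε := C1 * (1 + C2) / 2 ^ (j / 2))
    (κ := κ) (κ' := κ') ?_ ?_ ?_ ?_ ?_ ?_ hε0 ?_
  · simpa [hP] using main
  · intro θ hθ
    exact comp_aff (f := fun τ => (orb d (g τ) j).y) ((hg.der _ (hmem θ hθ)).orb d j).2.1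
  · intro θ hθ
    exact comp_aff (f := fun τ => (g τ).z) (hg.der _ (hmem θ hθ)).1
  · intro θ hθ
    exact mul_ne_zero (leaf_ne hδ hd (by omega) (hg.onS _ (hmem θ hθ)) (hg.zz _ (hmem θ hθ))
      (hlev _ (hmem θ hθ))) hne
  · intro θ hθ
    exact hg.zz _ (hmem θ hθ)
  · intro θ hθ hk
    have hm := hmem θ hθ
    have b1 := (H2 d hd (g (P θ)) (hg.onS _ hm) (hg.zz _ hm) M (hlev _ hm) j (by omega)).2.1
    have b2 := H1 d hd j M (by omega) hjM (g (P θ)) (hg.onS _ hm) (hg.zz _ hm)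
      ((hlev _ hm).trans_lt hcc) (hk.trans_lt hκc)
    rw [abs_mul, abs_mul, div_mul_eq_mul_div, le_div_iff₀ hpw]
    have b3 : C1 * (1 + |(orb d (g (P θ)) j).z|) * |(LF d M (g (P θ))).z|
        ≤ C1 * (1 + C2) * |(LF d M (g (P θ))).z| := by
      apply mul_le_mul_of_nonneg_right _ (abs_nonneg _)
      apply mul_le_mul_of_nonneg_left _ hC1.le
      linarith
    nlinarith [abs_nonneg (τ1 - s), b2.trans b3]
  · simpa [hP] using hjs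
  · have hle : (2:ℝ) ^ j1 ≤ 2 ^ (j / 2) := pow_le_pow_right₀ (by norm_num) (by omega)
    rw [← mul_div_assoc, div_lt_iff₀ hpw]
    nlinarith

end Pool.Agent.W816.Stu
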