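import Mathlib
import Pool.Agent.W811.Stu.Stmts3

/-!
Control of long hyperbolic runs along leaves (`TLeafT`).
-/

set_option autoImplicit false

open Set

namespace Pool.Agent.W816.Stu

open Pool.Agent.W811.Stu

/-- control of long hyperbolic runs along leaves -/
theorem leafT (h1 : TLeafC) (h2 : TBddL) (h3 : THyp) : TLeafT := by
  intro δ κ1 κ3 hδ hκ1 hκ13 hκ3
  obtain ⟨j0, hj0, H1⟩ := h1 δ 1 κ1 hδ zero_le_one hκ1 (hκ13.trans hκ3)
  obtain ⟨C2, hC2, H2⟩ := h2 δ hδ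
  obtain ⟨K, H3⟩ := h3 δ κ1 κ3 hδ (by linarith) hκ3
  refine ⟨max 1 K, j0 + 1, le_max_left _ _, by omega, ?_⟩
  intro d hd M g s t hg hM j hj hjM hjs hK
  have hKd : K ≤ d j := (le_max_right _ _).trans hK
  have hsm : s ∈ uIcc s t := left_mem_uIcc
  obtain ⟨i, rfl⟩ : ∃ i, j = i + 1 := ⟨j - 1, by omega⟩
  have e1 : |(orb d (g s) i).y| ≤ 1 := by
    rcases (H2 d hd (g s) (hg.onS _ hsm) (hg.zz _ hsm) M hM i (by omega)).1 with h | h
    · exact h
    · exact absurd h (not_le.2 hjs)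
  have e2 : |(orb d (g s) (i + 1 + 1)).y| ≤ 1 := by
    rcases (H2 d hd (g s) (hg.onS _ hsm) (hg.zz _ hsm) M hM (i + 1) (by omega)).1 with h | h
    · exact absurd h (not_le.2 hjs)
    · exact h
  have c1 := H1 d hd M g s t hg hM i (by omega) (by omega) e1
  have c2 := H1 d hd M g s t hg hM (i + 1 + 1) (by omega) (by omega) e2
  have hyp : ∀ τ ∈ uIcc s t, 1 < |(orb d (g τ) (i + 1)).y| →
      κ3 ≤ |(orb d (g τ) (i + 1)).y| ∧ ∀ k ≤ d (i + 1), |tf d (i + 1) k (g τ)| ≤ κ1 := by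
    intro τ hτ h
    have hS := (hg.onS τ hτ).orb d (i + 1)
    have a1 : |(orb d (g τ) (i + 1)).z| ≤ κ1 := by rw [orb_succ_z]; exact c1 τ hτ
    have a2 : |(stepR^[d (i + 1)] (orb d (g τ) (i + 1))).z| ≤ κ1 := by
      have := c2 τ hτ
      rw [orb_succ_y] at this
      exact this
    have := H3 (orb d (g τ) (i + 1)) (d (i + 1)) hS h a1 a2
    exact ⟨this.2 hKd, this.1⟩
  have hcont : ContinuousOn (fun τ => |(orb d (g τ) (i + 1)).y|) (uIcc s t) := fun τ hτ =>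
    (((hg.der τ hτ).orb d (i + 1)).2.1.continuousAt.abs).continuousWithinAt
  intro τ hτ
  apply hyp τ hτ
  by_contra hc
  push Not at hc
  have hs3 := (hyp s hsm hjs).1
  have hsub : uIcc s τ ⊆ uIcc s t := uIcc_subset_uIcc_left hτ
  have hiv := intermediate_value_uIcc (hcont.mono hsub)
  have hmid : (1 + κ3) / 2 ∈ uIcc (|(orb d (g s) (i + 1)).y|) (|(orb d (g τ) (i + 1)).y|) := by
    rw [uIcc_of_ge (by linarith)]
    constructor <;> linarith
  obtain ⟨ρ, hρ, hρ2⟩ := hiv hmid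
  simp only at hρ2
  have := (hyp ρ (hsub hρ) (by rw [hρ2]; linarith)).1
  rw [hρ2] at this
  linarith

end Pool.Agent.W816.Stu
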